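import Pool.Agent.K1H28.ZO.Full

/-!
# Cubic progressions: reduction to ergodic measures on binary words, with positive probability, along
one lacunary sequence of scales

`Pointwise` is the affirmative answer to Q1: the averages `(1/N) ∑_{n=1}^N f(T^n x) g(T^{2n} x) h(T^{3n} x)`
converge almost everywhere for all measure preserving maps and all `f, g, h` in `L^∞`.

`wordAvg w N` is `(1/N)` times the number of `n ≤ N` with `w_n = w_{2n} = w_{3n} = 1`, for `w ∈ {0,1}^ℕ`.

Let `ν` be any sequence of integers tending to infinity with bounded ratios `ν_{k+1} / ν_k`, for instance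
`ν_k = 2^k`. The following are equivalent.

1. The answer to Q1 is positive.
2. For every shift invariant ergodic probability measure on `{0,1}^ℕ` the averages `wordAvg w (ν_k)` converge as
   `k → ∞` with positive probability.
3. (Finitary form) For all `ε > 0` and `F : ℕ → ℕ` there are `K` and `M₀` such that for every word `w` and all
   `M ≥ M₀`, for all but at most `ε M` of the starting points `i < M` there is a scale `N ≤ K` such that the averages
   `wordAvg` of the word `w_i w_{i+1} ⋯` at the indices `ν_p`, `N ≤ p ≤ F N`, differ by at most `ε`.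

Proof (`Pool.Agent.K1H28.ZO`).
`3 → (Q1 along ν)`: Calderón transference to the orbits, then approximation by sets, and the skew
product with the cyclic group of prime order `p`, in which the set `A × {c} ∪ B × {2c} ∪ C × {3c}` separates the
three positions for the times `n ≡ c mod p` (`Tri`, `Cyc`, `Finw`).
`not 3 → not 2`: a weak limit of empirical measures is an invariant measure on two-sided words with divergence on a
set of positive measure (`Two`); an ergodic component (`Erg`, with the ergodic decomposition `Pool.Agent.R291.QD` of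
the starting files); by Baire's theorem in the box of functions with values in `[0,1]` (a cubic polynomial with a
divergent coefficient diverges except at three values of the variable, Fubini) there is a function in `[0,1]` with
divergence at almost every point (`Zero`, `Diag`); independent sampling of this function gives a random set with
divergence almost everywhere, since the telescoped differences are orthogonal (`Samp`, with the strong law
`Pool.Agent.W761.Tail.slln` of the starting files); a second ergodic decomposition (`Main`).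
`(Q1 along ν) → 1`: the powers of `T` and towers over `T` give convergence along all rational dilations of `ν`; the
limits agree with the limit in `L²` (`Pool.Agent.Y311.DN.pow_dens` of the starting files), and the ratios are bounded
(`Dil`, `Full`).
-/

set_option autoImplicit false

open MeasureTheory Filter Topology

namespace Pool.Agent.Results.MP_9721b5_an.ErgodicBinaryWords

/-- The affirmative answer to Q1. -/
def Pointwise : Prop :=
  ∀ (X : Type) [MeasurableSpace X] (μ : Measure X) [IsProbabilityMeasure μ] (T : X → X),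
    MeasurePreserving T μ μ →
    ∀ f g h : X → ℝ, MemLp f ⊤ μ → MemLp g ⊤ μ → MemLp h ⊤ μ →
      ∀ᵐ x ∂μ, ∃ L : ℝ,
        Tendsto (fun N : ℕ => (N : ℝ)⁻¹ *
            ∑ n ∈ Finset.Icc 1 N, f (T^[n] x) * g (T^[2 * n] x) * h (T^[3 * n] x))
          atTop (𝓝 L)

/-- The proportion of the times `1 ≤ n ≤ N` at which the word has the symbol `1` at `n`, `2n` and `3n`. -/
noncomputable def wordAvg (w : ℕ → Bool) (N : ℕ) : ℝ :=
  (N : ℝ)⁻¹ * ∑ n ∈ Finset.Icc 1 N, if w n = true ∧ w (2 * n) = true ∧ w (3 * n) = true then 1 else 0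

/-- The shift of binary words. -/
def shift (w : ℕ → Bool) : ℕ → Bool := fun n => w (n + 1)

/-- For every ergodic shift invariant probability measure on the binary words the averages along the scales `ν`
converge with positive probability. -/
def ErgodicWords (ν : ℕ → ℕ) : Prop :=
  ∀ m : Measure (ℕ → Bool), IsProbabilityMeasure m → Ergodic shift m →
    0 < m {w | ∃ L : ℝ, Tendsto (fun k => wordAvg w (ν k)) atTop (𝓝 L)}

/-- The finitary statement: at most `ε M` of the first `M` starting points are bad at all scales up to `K`. -/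
def FinitaryWords (ν : ℕ → ℕ) : Prop :=
  ∀ ε : ℝ, 0 < ε → ∀ F : ℕ → ℕ, ∃ K M₀ : ℕ, ∀ (w : ℕ → Bool) (M : ℕ), M₀ ≤ M →
    ({i : ℕ | i < M ∧ ∀ N ≤ K, ∃ p q : ℕ, (N ≤ p ∧ p ≤ F N) ∧ (N ≤ q ∧ q ≤ F N) ∧
      ε < |wordAvg (fun n => w (i + n)) (ν p) - wordAvg (fun n => w (i + n)) (ν q)|}.ncard : ℝ) ≤ ε * M

lemma wordAvg_eq (ν : ℕ → ℕ) (w : ℕ → Bool) :
    (fun k => wordAvg w (ν k)) = Pool.Agent.K1H28.ZO.wav ν w := by
  funext k
  unfold wordAvg Pool.Agent.K1H28.ZO.wav
  congr 1
  refine Finset.sum_congr rfl fun n _ => ?_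
  unfold Pool.Agent.K1H28.ZO.vl
  by_cases h1 : w n = true <;> by_cases h2 : w (2 * n) = true <;> by_cases h3 : w (3 * n) = true <;>
    simp [h1, h2, h3]

lemma ergodicWords_iff (ν : ℕ → ℕ) : ErgodicWords ν ↔ Pool.Agent.K1H28.ZO.Bin ν := by
  have e : ∀ w : ℕ → Bool, (∃ L : ℝ, Tendsto (fun k => wordAvg w (ν k)) atTop (𝓝 L)) ↔
      Pool.Agent.K1H28.ZO.Cv (Pool.Agent.K1H28.ZO.wav ν w) := by
    intro w
    rw [wordAvg_eq]
    exact Iff.rfl
  unfold ErgodicWords Pool.Agent.K1H28.ZO.Bin
  simp only [e, pos_iff_ne_zero]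
  exact Iff.rfl

lemma finitaryWords_iff (ν : ℕ → ℕ) : FinitaryWords ν ↔ Pool.Agent.K1H28.ZO.Fini ν := by
  have e : ∀ (w : ℕ → Bool) (p : ℕ), wordAvg w (ν p) = Pool.Agent.K1H28.ZO.wav ν w p := fun w p =>
    congrFun (wordAvg_eq ν w) p
  unfold FinitaryWords Pool.Agent.K1H28.ZO.Fini Pool.Agent.K1H28.ZO.Bad
  simp only [e]

/-- **Theorem.** Let `ν` tend to infinity with bounded ratios, for instance `ν_k = 2^k`. Then Q1 has a positive
answer if and only if in every ergodic shift invariant measure on `{0,1}^ℕ` the averages `wordAvg w (ν_k)` converge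
with positive probability, and if and only if the finitary statement holds. -/
theorem result (ν : ℕ → ℕ) (hν : Tendsto ν atTop atTop) (hC : ∃ C : ℕ, ∀ k, ν (k + 1) ≤ C * ν k) :
    [Pointwise, ErgodicWords ν, FinitaryWords ν].TFAE := by
  obtain ⟨C, hC⟩ := hC
  have h0 : Pointwise ↔ Pool.Agent.K1H28.ZO.Q1 id := Iff.rfl
  have h1 : Pool.Agent.K1H28.ZO.Q1 id → Pool.Agent.K1H28.ZO.Q1 ν := by
    intro H X _ μ _ T hT f g h hf hg hh
    filter_upwards [H X μ T hT f g h hf hg hh] with x hx
    obtain ⟨L, hL⟩ := hx
    exact ⟨L, hL.comp hν⟩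
  tfae_have 1 → 2 := fun H =>
    (ergodicWords_iff ν).2 (Pool.Agent.K1H28.ZO.bin_of_q1 (h1 (h0.1 H)))
  tfae_have 1 → 3 := fun H =>
    (finitaryWords_iff ν).2 (Pool.Agent.K1H28.ZO.fini_of_q1 (h1 (h0.1 H)))
  tfae_have 2 → 1 := fun H =>
    h0.2 (Pool.Agent.K1H28.ZO.q1_of_scales hν hC
      (Pool.Agent.K1H28.ZO.q1_of_bin hν ((ergodicWords_iff ν).1 H)))
  tfae_have 3 → 1 := fun H =>
    h0.2 (Pool.Agent.K1H28.ZO.q1_of_scales hν hC
      (Pool.Agent.K1H28.ZO.q1_of_fini ((finitaryWords_iff ν).1 H)))
  tfae_finish

end Pool.Agent.Results.MP_9721b5_an.ErgodicBinaryWords
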