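import Pool.Agent.K1H28.ZG.Final
import Pool.Agent.K1H28.ZO.Full

/-!
# Cubic progressions: in every ergodic system either all triples of functions converge almost everywhere,
or generic triples of sets diverge at almost every point

`Values μ K` is the set of the classes of functions with values in `K ⊆ ℝ` almost everywhere, as a subspace of
`L¹(μ)`. For `K = {0, 1}` this is the space of measurable sets modulo null sets with the distance `μ (A Δ B)`.

`Converges T f g h x`: the averages `(1/N) ∑_{n=1}^N f(T^n x) g(T^{2n} x) h(T^{3n} x)` converge. `conv T e`: the set of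
the points with this property for the triple `e`.

`Good μ T`: they converge at almost every point for all `f, g, h` in `L^∞(μ)` (Q1 for the system). `Pointwise`: this
holds for all systems (the affirmative answer to Q1).

`Divergent μ T K₁ K₂ K₃`: the triples in `Values μ K₁ × Values μ K₂ × Values μ K₃` (distance: the maximum of the three
`L¹` distances) for which the averages diverge at almost every point.

The theorem:

1. For every measure preserving map and compact `K₁, K₂, K₃` the probability of convergence is an upper semicontinuous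
   function of the triple. (In particular the triples with convergence almost everywhere form a closed set.)
2. For every ergodic map of a probability space either the answer to Q1 is positive in this system, or for ALL compact
   `K₁, K₂, K₃` with at least two points the set of the triples which diverge at almost every point is a dense `G_δ`,
   in particular for the triples `(A, B, C)` of measurable sets (`K = {0, 1}`) in the measure algebra.
3. The answer to Q1 is negative if and only if there is an ergodic shift invariant probability measure on `{0,1}^ℕ`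
   for which the second alternative holds.

Proof (`Pool.Agent.K1H28.ZG`). 1 follows from the maximal inequality for `T`, `T²` and `T³`. For 2 let `u, v, w` be a
triple with divergence on a set `D` of positive measure (two values suffice, by linearity). For `(f, g, h)` given and
almost every `s` the triple `(1-s) (f, g, h) + s (u, v, w)` diverges almost everywhere on `D`, since a cubic polynomial
whose value diverges for one `s` converges for at most three `s`. Now the function `(1-s) f + s u` is replaced by the
function equal to `u` on a random set `E` and to `f` off `E`: `E` is the union of the pieces, chosen independently with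
probability `s`, of a partition into small sets (it exists unless the measure algebra is finite, when the sequences are
periodic). At almost every point the averages are affine functions of the choices, and for large `N` the influence of a
piece `Q` is at most a constant times the frequency of `Q` along the orbit, hence at most `C μ(Q)` by the ergodic
theorem; so their variance is at most `C max μ(Q)`, uniformly for large `N`, and the oscillation survives for most
choices of `E`. The same is done for `g` and `h`. The sets `T^{-k} D` cover almost everything, and Baire's theorem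
finishes the proof. 3 follows with the reduction to ergodic binary processes (`Pool.Agent.K1H28.ZO`).
-/

set_option autoImplicit false

open MeasureTheory Filter Topology
open scoped ENNReal

namespace Pool.Agent.Results.MP_9721b5_an.GenericTriples

universe u

/-- The averages of the triple at `x` converge. -/
def Converges {X : Type u} (T : X → X) (f g h : X → ℝ) (x : X) : Prop :=
  ∃ L : ℝ, Tendsto (fun N : ℕ => (N : ℝ)⁻¹ *
    ∑ n ∈ Finset.Icc 1 N, f (T^[n] x) * g (T^[2 * n] x) * h (T^[3 * n] x)) atTop (𝓝 L)

/-- The affirmative answer to Q1 in one system. -/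
def Good {X : Type u} [MeasurableSpace X] (μ : Measure X) (T : X → X) : Prop :=
  ∀ f g h : X → ℝ, MemLp f ⊤ μ → MemLp g ⊤ μ → MemLp h ⊤ μ → ∀ᵐ x ∂μ, Converges T f g h x

/-- The affirmative answer to Q1. -/
def Pointwise : Prop :=
  ∀ (X : Type) [MeasurableSpace X] (μ : Measure X) [IsProbabilityMeasure μ] (T : X → X),
    MeasurePreserving T μ μ → Good μ T

/-- The space of the functions with values in `K` almost everywhere, modulo null sets. -/
def Values {X : Type u} [MeasurableSpace X] (μ : Measure X) (K : Set ℝ) : Type u :=
  {f : Lp ℝ 1 μ // ∀ᵐ x ∂μ, f x ∈ K}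

/-- The distance of `L¹`. -/
noncomputable instance {X : Type u} [MeasurableSpace X] (μ : Measure X) (K : Set ℝ) :
    MetricSpace (Values μ K) :=
  Subtype.metricSpace

/-- A function in the class. -/
noncomputable def fn {X : Type u} [MeasurableSpace X] {μ : Measure X} {K : Set ℝ} (f : Values μ K) :
    X → ℝ := f.1

/-- The triples of functions with values in `K₁`, `K₂`, `K₃`. -/
def Triples {X : Type u} [MeasurableSpace X] (μ : Measure X) (K₁ K₂ K₃ : Set ℝ) : Type u :=
  Values μ K₁ × Values μ K₂ × Values μ K₃

/-- The topology of the product. -/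
noncomputable instance {X : Type u} [MeasurableSpace X] (μ : Measure X) (K₁ K₂ K₃ : Set ℝ) :
    TopologicalSpace (Triples μ K₁ K₂ K₃) :=
  instTopologicalSpaceProd

/-- The set of the points at which the averages of the triple converge. -/
def conv {X : Type u} [MeasurableSpace X] {μ : Measure X} (T : X → X) {K₁ K₂ K₃ : Set ℝ}
    (e : Triples μ K₁ K₂ K₃) : Set X :=
  {x | Converges T (fn e.1) (fn e.2.1) (fn e.2.2) x}

/-- The triples with values in `K₁`, `K₂`, `K₃` whose averages diverge at almost every point. -/
def Divergent {X : Type u} [MeasurableSpace X] (μ : Measure X) (T : X → X) (K₁ K₂ K₃ : Set ℝ) :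
    Set (Triples μ K₁ K₂ K₃) :=
  {e | ∀ᵐ x ∂μ, x ∉ conv T e}

/-- The probability of convergence depends upper semicontinuously on the triple. -/
def Semicontinuous {X : Type u} [MeasurableSpace X] (μ : Measure X) (T : X → X) : Prop :=
  ∀ K₁ K₂ K₃ : Set ℝ, IsCompact K₁ → IsCompact K₂ → IsCompact K₃ →
    UpperSemicontinuous fun e : Triples μ K₁ K₂ K₃ => μ (conv T e)

/-- For all compact `K₁, K₂, K₃` with at least two points the triples with divergence almost everywhere are a
dense `G_δ`. -/
def GenericallyDivergent {X : Type u} [MeasurableSpace X] (μ : Measure X) (T : X → X) : Prop :=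
  ∀ K₁ K₂ K₃ : Set ℝ, IsCompact K₁ → IsCompact K₂ → IsCompact K₃ →
    K₁.Nontrivial → K₂.Nontrivial → K₃.Nontrivial →
    IsGδ (Divergent μ T K₁ K₂ K₃) ∧ Dense (Divergent μ T K₁ K₂ K₃)

/-- The shift of binary words. -/
def shift (w : ℕ → Bool) : ℕ → Bool := fun n => w (n + 1)

open Pool.Agent.K1H28.ZO Pool.Agent.K1H28.ZG

lemma exists_bound {K₁ K₂ K₃ : Set ℝ} (hK₁ : IsCompact K₁) (hK₂ : IsCompact K₂) (hK₃ : IsCompact K₃) :
    ∃ B : ℝ, 0 < B ∧ (∀ t ∈ K₁, |t| ≤ B) ∧ (∀ t ∈ K₂, |t| ≤ B) ∧ (∀ t ∈ K₃, |t| ≤ B) := by
  obtain ⟨B₁, h1⟩ := hK₁.isBounded.exists_norm_le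
  obtain ⟨B₂, h2⟩ := hK₂.isBounded.exists_norm_le
  obtain ⟨B₃, h3⟩ := hK₃.isBounded.exists_norm_le
  refine ⟨max 1 (max B₁ (max B₂ B₃)), lt_of_lt_of_le one_pos (le_max_left _ _), fun t ht => ?_,
    fun t ht => ?_, fun t ht => ?_⟩
  · exact (h1 t ht).trans ((le_max_left _ _).trans (le_max_right _ _))
  · exact (h2 t ht).trans ((le_max_left _ _).trans ((le_max_right _ _).trans (le_max_right _ _)))
  · exact (h3 t ht).trans ((le_max_right _ _).trans ((le_max_right _ _).trans (le_max_right _ _)))

lemma open_part {X : Type u} [MeasurableSpace X] (μ : Measure X) [IsProbabilityMeasure μ] (T : X → X)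
    (hT : MeasurePreserving T μ μ) : Semicontinuous μ T := by
  intro K₁ K₂ K₃ hK₁ hK₂ hK₃
  rw [upperSemicontinuous_iff_isOpen_preimage]
  intro c
  obtain ⟨B, hB0, hB₁, hB₂, hB₃⟩ := exists_bound hK₁ hK₂ hK₃
  have h := VV_open (μ := μ) (Φ := Ph (μ := μ) T K₁ K₂ K₃)
    (fun e N => av_meas hT.measurable (l1_meas _) (l1_meas _) (l1_meas _) N)
    (maxCont hT hB0 hB₁ hB₂ hB₃) MeasurableSet.univ c
  unfold VV at h
  simp only [Set.univ_inter] at h
  exact h

lemma not_good {X : Type u} [MeasurableSpace X] {μ : Measure X} [IsProbabilityMeasure μ] {T : X → X}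
    (hT : Ergodic T μ) (h : ¬ Good μ T) : GenericallyDivergent μ T := by
  intro K₁ K₂ K₃ hK₁ hK₂ hK₃ n₁ n₂ n₃
  have hTp := hT.toMeasurePreserving
  obtain ⟨B, hB0, hB₁, hB₂, hB₃⟩ := exists_bound hK₁ hK₂ hK₃
  refine And.intro ?_ ?_
  · have h1 := gdelta (μ := μ) (Φ := Ph (μ := μ) T K₁ K₂ K₃)
      (fun e N => av_meas hTp.measurable (l1_meas _) (l1_meas _) (l1_meas _) N)
      (maxCont hTp hB0 hB₁ hB₂ hB₃) MeasurableSet.univ
    simp only [Set.mem_univ, forall_const] at h1
    exact h1
  · refine generic hT (fun hall => h ?_) hK₁ hK₂ hK₃ n₁ n₂ n₃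
    intro f g h hf hg hh
    exact all_of_trip (ν := id) hTp hall f g h hf hg hh

lemma excl {X : Type u} [MeasurableSpace X] (μ : Measure X) [IsProbabilityMeasure μ] (T : X → X)
    (hg : Good μ T) : ¬ GenericallyDivergent μ T := by
  intro hd
  have hK : IsCompact ({0, 1} : Set ℝ) := (Set.toFinite _).isCompact
  have hn : ({0, 1} : Set ℝ).Nontrivial := ⟨0, by simp, 1, by simp, by norm_num⟩
  have hz : ∀ᵐ x ∂μ, (0 : Lp ℝ 1 μ) x ∈ ({0, 1} : Set ℝ) := by
    filter_upwards [Lp.coeFn_zero ℝ 1 μ] with x hx
    rw [hx]
    simp
  have hne : Nonempty (Triples μ ({0, 1} : Set ℝ) {0, 1} {0, 1}) := ⟨(⟨0, hz⟩, ⟨0, hz⟩, ⟨0, hz⟩)⟩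
  obtain ⟨e, he⟩ := (hd _ _ _ hK hK hK hn hn hn).2.nonempty
  have hL : ∀ F : Values μ ({0, 1} : Set ℝ), MemLp (fn F) ⊤ μ := fun F =>
    MemLp.of_bound (l1_meas _).aestronglyMeasurable 1 (by
      filter_upwards [F.2] with x hx
      show ‖F.1 x‖ ≤ 1
      rcases hx with hx | hx
      · rw [hx]; simp
      · rw [hx]; simp)
  have h1 := hg _ _ _ (hL e.1) (hL e.2.1) (hL e.2.2)
  have h2 : ∀ᵐ x ∂μ, False := by
    filter_upwards [h1, he] with x h3 h4
    exact h4 h3
  exact h2.exists.elim fun _ h => h

/-- **Theorem.** 1. For every measure preserving map the probability of convergence is upper semicontinuous.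
2. For every ergodic map exactly one of `Good` and `GenericallyDivergent` holds.
3. The answer to Q1 is negative if and only if some ergodic shift invariant probability measure on the binary words
is generically divergent. -/
theorem result :
    (∀ (X : Type u) [MeasurableSpace X] (μ : Measure X) [IsProbabilityMeasure μ] (T : X → X),
      MeasurePreserving T μ μ → Semicontinuous μ T) ∧
    (∀ (X : Type u) [MeasurableSpace X] (μ : Measure X) [IsProbabilityMeasure μ] (T : X → X),
      Ergodic T μ → (Good μ T ∨ GenericallyDivergent μ T) ∧ ¬ (Good μ T ∧ GenericallyDivergent μ T)) ∧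
    (¬ Pointwise ↔ ∃ m : Measure (ℕ → Bool), IsProbabilityMeasure m ∧ Ergodic shift m ∧
      GenericallyDivergent m shift) := by
  refine ⟨fun X _ μ _ T hT => open_part μ T hT,
    fun X _ μ _ T hT => ⟨?_, fun h => excl μ T h.1 h.2⟩, ?_, ?_⟩
  · by_cases h : Good μ T
    · exact Or.inl h
    · exact Or.inr (not_good hT h)
  · intro hq
    have h1 : ¬ Bin id := fun hb => hq (q1_of_bin tendsto_id hb)
    unfold Bin at h1
    push Not at h1
    obtain ⟨m, hm, he, h0⟩ := h1
    refine ⟨m, hm, he, ?_⟩
    refine not_good (T := shift) he fun hg => ?_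
    have hu : Measurable fun w : ℕ → Bool => vl (w 0) := vl_meas.comp (measurable_pi_apply 0)
    have hL : MemLp (fun w : ℕ → Bool => vl (w 0)) ⊤ m :=
      MemLp.of_bound hu.aestronglyMeasurable 1 (Eventually.of_forall fun w => by
        rw [Real.norm_eq_abs, abs_of_nonneg (vl_01 _).1]
        exact (vl_01 _).2)
    have h2 := hg _ _ _ hL hL hL
    have h3 : ∀ᵐ w ∂m, w ∉ {w : ℕ → Bool | Cv (wav id w)} := by
      rw [ae_iff]
      simpa using h0
    have h4 : ∀ᵐ w ∂m, False := by
      filter_upwards [h2, h3] with w h5 h6
      apply h6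
      show Cv (wav id w)
      rw [wav_sh1]
      exact h5
    exact h4.exists.elim fun _ h => h
  · rintro ⟨m, hm, he, hd⟩ hp
    exact excl m shift (hp _ m shift he.toMeasurePreserving) hd

end Pool.Agent.Results.MP_9721b5_an.GenericTriples
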